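import Pool.Agent.W_MP_c01b7c_lc.Cert

namespace Pool.Agent.Results.MP_c01b7c_lc.PAProvesPH

open Pool.Agent.W_MP_c01b7c_lc.Peano
open Pool.Agent.W_MP_c01b7c_lc.Peano.Tm Pool.Agent.W_MP_c01b7c_lc.Peano.Fm

/-- The formula `fPH` of the language `0, S, +, *` defines in the natural numbers the
Paris-Harrington relation `n →_* (e + 1)^e_2`, and Peano arithmetic proves
`∀ e ∃ n, n →_* (e + 1)^e_2`. -/
theorem result :
    (∀ (e n : ℕ) (v : ℕ → ℕ),
      Holds (cons e (cons n v)) (fPH (var 0) (var 1)) ↔ Arrow n (e + 1) e 2) ∧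
    Proves PA (all (ex (fPH (var 1) (var 0)))) :=
  ⟨holds_ph, pa_proves_ph⟩

end Pool.Agent.Results.MP_c01b7c_lc.PAProvesPH
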